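import Mathlib
import Pool.Agent.X225.Tree

/-!
# An algebra isotypic to a one-generated algebra need not be finitely generated
-/

namespace Pool.Agent.Results.MP_74a3dd_lc.CyclicAndNotFinitelyGenerated

open FirstOrder FirstOrder.Language Pool.Agent.X225.Tree

/-- There are an algebraic signature (operation symbols only) and two algebras `H₁`, `H₂` of this
signature which are isotypic, `H₁` being generated by one element and `H₂` not being finitely
generated.  (Both lie in the variety of all algebras of the signature.) -/
theorem result :
    ∃ (L : FirstOrder.Language.{0, 0}) (_ : L.IsAlgebraic) (H₁ H₂ : Type)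
      (_ : L.Structure H₁) (_ : L.Structure H₂),
      Isotypic L H₁ H₂ ∧ (∃ a : H₁, Substructure.closure L {a} = ⊤) ∧
        ¬ Structure.FG L H₂ := by
  refine ⟨LT, fun n => inferInstance, T 0, U, inferInstance, inferInstance, isotypic_T_U,
    ⟨⟨b 0, b_mem_T.mpr le_rfl⟩, ?_⟩, U_not_fg⟩
  apply Substructure.map_injective_of_injective (f := (T 0).subtype.toHom)
    (T 0).subtype.injective
  have h1 : (⊤ : LT.Substructure (T 0)).map (T 0).subtype.toHom = T 0 := by
    ext x
    simp only [Substructure.mem_map, Substructure.mem_top, true_and]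
    constructor
    · rintro ⟨y, rfl⟩
      exact y.2
    · intro hx
      exact ⟨⟨x, hx⟩, rfl⟩
  rw [h1, ← Substructure.closure_image]
  have h2 : (T 0).subtype.toHom '' {(⟨b 0, b_mem_T.mpr le_rfl⟩ : T 0)} = {b 0} := by
    rw [Set.image_singleton]
    rfl
  rw [h2, ← T_eq_closure]

end Pool.Agent.Results.MP_74a3dd_lc.CyclicAndNotFinitelyGenerated
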